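import Mathlib
import Pool.Prelude.Def_F_458e953d

/-!
Solution-free sets and the decision problem L-Free Subset.
-/

set_option autoImplicit false

namespace Pool.Agent.MP_f29e3e_lc

/-- The coefficients `(a_1, ..., a_l, -b)` of the equation `a_1 x_1 + ... + a_l x_l = b y`. -/
def coeffs {l : ℕ} (a : Fin l → ℕ) (b : ℕ) : Fin (l + 1) → ℤ :=
  Fin.lastCases (-(b : ℤ)) (fun i => (a i : ℤ))

/-- A tuple is trivial: the indices split into classes on which the tuple is constant and the
coefficients sum to zero. -/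
def IsTrivial {m : ℕ} (c z : Fin m → ℤ) : Prop :=
  ∃ P : Finpartition (Finset.univ : Finset (Fin m)),
    ∀ Q ∈ P.parts, (∀ i ∈ Q, ∀ j ∈ Q, z i = z j) ∧ ∑ i ∈ Q, c i = 0

/-- `S` is free for the equation `∑ c_i z_i = 0`: all solutions in `S` are trivial. -/
def IsFree {m : ℕ} (c : Fin m → ℤ) (S : Finset ℤ) : Prop :=
  ∀ z : Fin m → ℤ, (∀ i, z i ∈ S) → ∑ i, c i * z i = 0 → IsTrivial c z

/-- Yes-instances `(A, k)`: `A` has a free subset with at least `k` elements. -/
def YesInstance {m : ℕ} (c : Fin m → ℤ) (I : Finset ℤ × ℕ) : Prop :=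
  ∃ S ⊆ I.1, I.2 ≤ S.card ∧ IsFree c S

open Classical in
/-- The language of the code words of the yes-instances. -/
noncomputable def freeSubset {m : ℕ} (c : Fin m → ℤ) : N68a2faeb.DecisionProblem := fun x =>
  decide (∃ I : Finset ℤ × ℕ, N487b59b3.bitEncode I = x ∧ YesInstance c I)

end Pool.Agent.MP_f29e3e_lc
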