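import Mathlib

/-!
Points of the moment curve written in a large base behave as if linearly independent.
-/

set_option autoImplicit false

namespace Pool.Agent.MP_f29e3e_lc

open Finset

/-- The moment curve point `(1, v, ..., v^(h-1))` written in base `M`. -/
def mu (h M v : ℕ) : ℕ := ((List.range h).map (fun j => (v * M) ^ j)).sum

lemma mu_eq (h M v : ℕ) : mu h M v = ∑ j ∈ range h, (v * M) ^ j := rfl

lemma digits_zero (M : ℤ) (h : ℕ) (D : ℕ → ℤ) (hD : ∀ j < h, |D j| < M)
    (h0 : ∑ j ∈ range h, D j * M ^ j = 0) : ∀ j < h, D j = 0 := by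
  induction h generalizing D with
  | zero => intro j hj; omega
  | succ h ih =>
    rw [sum_range_succ'] at h0
    have hM : 0 < M := lt_of_le_of_lt (abs_nonneg _) (hD 0 (by omega))
    have e : ∑ j ∈ range h, D (j + 1) * M ^ (j + 1) = M * ∑ j ∈ range h, D (j + 1) * M ^ j := by
      rw [mul_sum]
      exact sum_congr rfl (fun j _ => by ring)
    rw [e, pow_zero, mul_one] at h0
    have hD0 : D 0 = 0 := by
      apply Int.eq_zero_of_abs_lt_dvd (m := M) _ (hD 0 (by omega))
      exact ⟨-∑ j ∈ range h, D (j + 1) * M ^ j, by linarith⟩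
    rw [hD0, add_zero, mul_eq_zero] at h0
    have h1 := ih (fun j => D (j + 1)) (fun j hj => hD (j + 1) (by omega))
      (h0.resolve_left hM.ne')
    intro j hj
    rcases j with _ | j
    · exact hD0
    · exact h1 j (by omega)

lemma vandermonde (h : ℕ) (T : Finset ℕ) (hT : T.card ≤ h) (d : ℕ → ℤ)
    (h0 : ∀ j < h, ∑ t ∈ T, d t * (t : ℤ) ^ j = 0) : ∀ t ∈ T, d t = 0 := by
  intro v hv
  set P : Polynomial ℤ := ∏ w ∈ T.erase v, (Polynomial.X - Polynomial.C (w : ℤ)) with hP
  have hdeg : P.natDegree < h := by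
    rw [hP, Polynomial.natDegree_finsetProd_X_sub_C_eq_card, card_erase_of_mem hv]
    have := card_pos.2 ⟨v, hv⟩
    omega
  have h1 : ∑ t ∈ T, d t * P.eval (t : ℤ) = 0 := by
    simp_rw [Polynomial.eval_eq_sum_range' hdeg, mul_sum]
    rw [sum_comm]
    apply sum_eq_zero
    intro j hj
    have := h0 j (mem_range.1 hj)
    calc ∑ t ∈ T, d t * (P.coeff j * (t : ℤ) ^ j) = P.coeff j * ∑ t ∈ T, d t * (t : ℤ) ^ j := by
          rw [mul_sum]
          exact sum_congr rfl (fun t _ => by ring)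
      _ = 0 := by rw [this, mul_zero]
  rw [sum_eq_single v] at h1
  · have h2 : P.eval (v : ℤ) ≠ 0 := by
      rw [hP, Polynomial.eval_prod, prod_ne_zero_iff]
      intro w hw
      simp only [Polynomial.eval_sub, Polynomial.eval_X, Polynomial.eval_C]
      exact sub_ne_zero.2 (fun e => (mem_erase.1 hw).1 (by exact_mod_cast e.symm))
    exact (mul_eq_zero.1 h1).resolve_right h2
  · intro t ht htv
    have : P.eval (t : ℤ) = 0 := by
      rw [hP, Polynomial.eval_prod]
      exact prod_eq_zero (mem_erase.2 ⟨htv, ht⟩) (by simp)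
    rw [this, mul_zero]
  · intro h
    exact absurd hv h

lemma indep (h n C : ℕ) (T : Finset ℕ) (hT : T.card ≤ h) (hTn : ∀ t ∈ T, t < n) (d : ℕ → ℤ)
    (hd : ∑ t ∈ T, |d t| ≤ C)
    (h0 : ∑ t ∈ T, d t * (mu h (C * (n + 1) ^ h + 1) t : ℤ) = 0) : ∀ t ∈ T, d t = 0 := by
  apply vandermonde h T hT d
  apply digits_zero ((C * (n + 1) ^ h + 1 : ℕ) : ℤ) h (fun j => ∑ t ∈ T, d t * (t : ℤ) ^ j)
  · intro j hj
    have h1 : |∑ t ∈ T, d t * (t : ℤ) ^ j| ≤ ∑ t ∈ T, |d t| * ((n : ℤ) + 1) ^ h := by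
      refine (abs_sum_le_sum_abs _ _).trans (sum_le_sum fun t ht => ?_)
      rw [abs_mul, abs_pow, Nat.abs_cast]
      have h2 : (t : ℤ) ≤ n + 1 := by have := hTn t ht; omega
      have h3 : (t : ℤ) ^ j ≤ ((n : ℤ) + 1) ^ h :=
        (pow_le_pow_left₀ (by positivity) h2 j).trans
          (pow_le_pow_right₀ (by omega) hj.le)
      exact mul_le_mul_of_nonneg_left h3 (abs_nonneg _)
    rw [← sum_mul] at h1
    have h4 : (∑ t ∈ T, |d t|) * ((n : ℤ) + 1) ^ h ≤ C * ((n : ℤ) + 1) ^ h :=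
      mul_le_mul_of_nonneg_right hd (by positivity)
    push_cast
    linarith
  · rw [← h0]
    simp_rw [mu_eq, sum_mul]
    rw [sum_comm]
    refine sum_congr rfl fun t _ => ?_
    push_cast
    rw [mul_sum]
    exact sum_congr rfl fun j _ => by rw [mul_pow]; ring

lemma mu_le (h M n v : ℕ) (hv : v < n) : mu h M v ≤ h * ((n + 1) * (M + 1)) ^ h := by
  rw [mu_eq]
  calc ∑ j ∈ range h, (v * M) ^ j ≤ ∑ _j ∈ range h, ((n + 1) * (M + 1)) ^ h := by
        refine sum_le_sum fun j hj => ?_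
        refine (Nat.pow_le_pow_left (by nlinarith) j).trans
          (Nat.pow_le_pow_right (by positivity) (mem_range.1 hj).le)
    _ = h * ((n + 1) * (M + 1)) ^ h := by simp

end Pool.Agent.MP_f29e3e_lc
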