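import Mathlib
import Pool.Agent.MP_f29e3e_lc.Defs
import Pool.Agent.MP_f29e3e_lc.Indep

/-!
The gadget: vertex numbers and edge numbers, and the solutions of the equation among them.
-/

set_option autoImplicit false

namespace Pool.Agent.MP_f29e3e_lc

open Finset

/-- vertices and edges -/
abbrev Item : Type := ℕ ⊕ (ℕ × ℕ)

/-- The formal vector of an item: `b e_v` or `p e_u + q e_v`. -/
def vec (p q b : ℕ) : Item → ℕ → ℤ
  | Sum.inl v, t => if t = v then (b : ℤ) else 0
  | Sum.inr e, t => (if t = e.1 then (p : ℤ) else 0) + (if t = e.2 then (q : ℤ) else 0)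

/-- The number of an item. -/
def num (p q b h M : ℕ) : Item → ℕ
  | Sum.inl v => b * mu h M v
  | Sum.inr e => p * mu h M e.1 + q * mu h M e.2

def supp : Item → Finset ℕ
  | Sum.inl v => {v}
  | Sum.inr e => {e.1, e.2}

def wt (p q b : ℕ) : Item → ℕ
  | Sum.inl _ => b
  | Sum.inr _ => p + q

def Valid (n : ℕ) : Item → Prop
  | Sum.inl v => v < n
  | Sum.inr e => e.1 < e.2 ∧ e.2 < n

variable {p q b h M n : ℕ}

lemma vec_nonneg (x : Item) (t : ℕ) : 0 ≤ vec p q b x t := by
  rcases x with v | e <;> simp only [vec] <;> positivity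

lemma card_supp (x : Item) : (supp x).card ≤ 2 := by
  rcases x with v | e
  · simp [supp]
  · exact card_le_two

lemma supp_lt {x : Item} (hx : Valid n x) : ∀ t ∈ supp x, t < n := by
  rcases x with v | e
  · simp only [supp, mem_singleton]
    rintro t rfl
    exact hx
  · simp only [supp, mem_insert, mem_singleton]
    obtain ⟨h1, h2⟩ := hx
    rintro t (rfl | rfl) <;> omega

lemma vec_eq_zero {x : Item} {t : ℕ} (ht : t ∉ supp x) : vec p q b x t = 0 := by
  rcases x with v | e
  · simp only [supp, mem_singleton] at ht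
    simp [vec, ht]
  · simp only [supp, mem_insert, mem_singleton, not_or] at ht
    simp [vec, ht.1, ht.2]

lemma sum_vec_mul (x : Item) {T : Finset ℕ} (hT : supp x ⊆ T) (f : ℕ → ℤ) :
    ∑ t ∈ T, vec p q b x t * f t =
      match x with
      | Sum.inl v => b * f v
      | Sum.inr e => p * f e.1 + q * f e.2 := by
  rcases x with v | e
  · have : v ∈ T := hT (by simp [supp])
    simp [vec, this]
  · have h1 : e.1 ∈ T := hT (by simp [supp])
    have h2 : e.2 ∈ T := hT (by simp [supp])
    simp [vec, add_mul, sum_add_distrib, h1, h2]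

lemma sum_vec_mu (x : Item) {T : Finset ℕ} (hT : supp x ⊆ T) :
    ∑ t ∈ T, vec p q b x t * (mu h M t : ℤ) = num p q b h M x := by
  rw [sum_vec_mul x hT]
  rcases x with v | e <;> simp [num]

lemma sum_vec (x : Item) {T : Finset ℕ} (hT : supp x ⊆ T) :
    ∑ t ∈ T, vec p q b x t = wt p q b x := by
  have := sum_vec_mul (p := p) (q := q) (b := b) x hT (fun _ => 1)
  simp only [mul_one] at this
  rw [this]
  rcases x with v | e <;> simp [wt]

lemma wt_le (x : Item) : wt p q b x ≤ p + q + b := by
  rcases x with v | e <;> simp [wt]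

/-- A numerical relation with few small coefficients holds formally. -/
lemma formal {ι : Type} [Fintype ι] (c : ι → ℤ) (x : ι → Item) (hx : ∀ i, Valid n (x i))
    (hc : ∑ i, |c i| ≤ (p + q + b : ℕ)) (hh : 2 * Fintype.card ι ≤ h)
    (h0 : ∑ i, c i * (num p q b h ((p + q + b) ^ 2 * (n + 1) ^ h + 1) (x i) : ℤ) = 0) :
    ∀ t, ∑ i, c i * vec p q b (x i) t = 0 := by
  classical
  set T := univ.biUnion (fun i => supp (x i)) with hT
  have hsub : ∀ i, supp (x i) ⊆ T := fun i => subset_biUnion_of_mem (fun i => supp (x i)) (mem_univ i)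
  have hcard : T.card ≤ h := by
    calc T.card ≤ ∑ i, (supp (x i)).card := card_biUnion_le
      _ ≤ ∑ _i : ι, 2 := sum_le_sum fun i _ => card_supp _
      _ ≤ h := by simp; omega
  have key := indep h n ((p + q + b) ^ 2) T hcard (by
      intro t ht
      obtain ⟨i, -, hi⟩ := mem_biUnion.1 ht
      exact supp_lt (hx i) t hi)
    (fun t => ∑ i, c i * vec p q b (x i) t) (by
      calc ∑ t ∈ T, |∑ i, c i * vec p q b (x i) t|
          ≤ ∑ t ∈ T, ∑ i, |c i| * vec p q b (x i) t := by
            refine sum_le_sum fun t _ => (abs_sum_le_sum_abs _ _).trans (le_of_eq ?_)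
            exact sum_congr rfl fun i _ => by rw [abs_mul, abs_of_nonneg (vec_nonneg _ _)]
        _ = ∑ i, |c i| * wt p q b (x i) := by
            rw [sum_comm]
            exact sum_congr rfl fun i _ => by rw [← mul_sum, sum_vec _ (hsub i)]
        _ ≤ ∑ i, |c i| * (p + q + b : ℕ) := sum_le_sum fun i _ =>
            mul_le_mul_of_nonneg_left (by exact_mod_cast wt_le _) (abs_nonneg _)
        _ ≤ (((p + q + b) ^ 2 : ℕ) : ℤ) := by
            rw [← sum_mul, Nat.cast_pow, sq]
            exact mul_le_mul_of_nonneg_right hc (by positivity))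
    (by
      rw [← h0]
      simp_rw [sum_mul]
      rw [sum_comm]
      refine sum_congr rfl fun i _ => ?_
      rw [← sum_vec_mu _ (hsub i), mul_sum]
      exact sum_congr rfl fun t _ => by ring)
  intro t
  by_cases ht : t ∈ T
  · exact key t ht
  · exact sum_eq_zero fun i _ => by rw [vec_eq_zero (fun h => ht (hsub i h)), mul_zero]

lemma vec_pos (hp : 0 < p) (hq : 0 < q) (hb : 0 < b) {x : Item} {t : ℕ} (ht : t ∈ supp x) :
    0 < vec p q b x t := by
  rcases x with v | e
  · simp only [supp, mem_singleton] at ht
    simp [vec, ht, hb]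
  · simp only [supp, mem_insert, mem_singleton] at ht
    simp only [vec]
    rcases ht with rfl | rfl
    · simp only [if_true]
      positivity
    · simp only [if_true]
      positivity

lemma eq_of_supp {x y : Item} (hx : Valid n x) (hy : Valid n y) (h : supp x = supp y) : x = y := by
  have h1 : ∀ t, t ∈ supp x ↔ t ∈ supp y := fun t => by rw [h]
  rcases x with v | ⟨u, v⟩ <;> rcases y with w | ⟨u', v'⟩ <;>
    simp only [supp, mem_insert, mem_singleton, Valid] at h1 hx hy
  · rw [(h1 v).1 rfl]
  · have := (h1 u').2 (Or.inl rfl)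
    have := (h1 v').2 (Or.inr rfl)
    omega
  · have := (h1 u).1 (Or.inl rfl)
    have := (h1 v).1 (Or.inr rfl)
    omega
  · have a1 := (h1 u).1 (Or.inl rfl)
    have a2 := (h1 v).1 (Or.inr rfl)
    have a3 := (h1 u').2 (Or.inl rfl)
    have a4 := (h1 v').2 (Or.inr rfl)
    have : u = u' ∧ v = v' := by omega
    rw [this.1, this.2]

lemma num_inj (hp : 0 < p) (hq : 0 < q) (hb : 0 < b) (hh : 4 ≤ h) {x y : Item}
    (hx : Valid n x) (hy : Valid n y)
    (e : num p q b h ((p + q + b) ^ 2 * (n + 1) ^ h + 1) x =
      num p q b h ((p + q + b) ^ 2 * (n + 1) ^ h + 1) y) : x = y := by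
  have key := formal (p := p) (q := q) (b := b) (h := h) (n := n) ![1, -1] ![x, y]
    (by
      intro i
      fin_cases i
      · exact hx
      · exact hy)
    (by simp; omega) (by simpa using hh) (by simp [Fin.sum_univ_two, e])
  have key' : ∀ t, vec p q b x t = vec p q b y t := by
    intro t
    have := key t
    simp only [Fin.sum_univ_two, Matrix.cons_val_zero, Matrix.cons_val_one, one_mul,
      neg_mul] at this
    linarith
  apply eq_of_supp hx hy
  ext t
  constructor
  · intro ht
    by_contra hn
    have := vec_pos hp hq hb ht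
    rw [key', vec_eq_zero hn] at this
    exact lt_irrefl _ this
  · intro ht
    by_contra hn
    have := vec_pos hp hq hb ht
    rw [← key', vec_eq_zero hn] at this
    exact lt_irrefl _ this

/-- Formal solutions: all items equal with `s = b`, or an edge together with both its ends. -/
lemma formal_cases {l : ℕ} (a : Fin l → ℕ) (ha : ∀ i, 0 < a i) (hp : 0 < p) (hq : 0 < q)
    (hb : 0 < b) (hs : ∑ i, a i = p + q) (x : Fin l → Item) (y : Item)
    (hx : ∀ i, Valid n (x i)) (hy : Valid n y)
    (h0 : ∀ t, ∑ i, (a i : ℤ) * vec p q b (x i) t = b * vec p q b y t) :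
    (p + q = b ∧ ∀ i, x i = y) ∨
      ∃ e, y = Sum.inr e ∧ (∃ i, x i = Sum.inl e.1) ∧ ∃ i, x i = Sum.inl e.2 := by
  classical
  have hs' : ∑ i, (a i : ℤ) = p + q := by exact_mod_cast hs
  -- supports
  have hsupp : ∀ i, supp (x i) ⊆ supp y := by
    intro i t ht
    by_contra hn
    have h1 := h0 t
    rw [vec_eq_zero hn, mul_zero] at h1
    have h2 := (sum_eq_zero_iff_of_nonneg (fun i _ =>
      mul_nonneg (Nat.cast_nonneg _) (vec_nonneg (x i) t))).1 h1 i (mem_univ i)
    have h3 := vec_pos hp hq hb ht
    have h4 : (0 : ℤ) < a i := by exact_mod_cast ha i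
    exact absurd h2 (mul_pos h4 h3).ne'
  have hall : (∀ i, x i = y) → p + q = b := by
    intro h
    obtain ⟨t, ht⟩ : (supp y).Nonempty := by rcases y with v | e <;> simp [supp]
    have h1 := h0 t
    simp only [h, ← sum_mul, hs'] at h1
    have h2 := mul_right_cancel₀ (vec_pos hp hq hb ht).ne' h1
    exact_mod_cast h2
  rcases y with w | ⟨u, v⟩
  · have : ∀ i, x i = Sum.inl w := by
      intro i
      apply eq_of_supp (hx i) hy
      refine (subset_singleton_iff.1 (hsupp i)).resolve_left ?_
      rcases x i with v | e <;> simp [supp]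
    exact Or.inl ⟨hall this, this⟩
  · have huv : u < v := hy.1
    have h3 : ∀ i, x i = Sum.inl u ∨ x i = Sum.inl v ∨ x i = Sum.inr (u, v) := by
      intro i
      have h1 := hsupp i
      have h2 := hx i
      rcases hxi : x i with w | ⟨u', v'⟩
      · rw [hxi] at h1
        have := h1 (mem_singleton_self w)
        simp only [supp, mem_insert, mem_singleton] at this
        rcases this with rfl | rfl
        · exact Or.inl rfl
        · exact Or.inr (Or.inl rfl)
      · rw [hxi] at h1 h2
        have a1 := h1 (show u' ∈ supp (Sum.inr (u', v')) by simp [supp])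
        have a2 := h1 (show v' ∈ supp (Sum.inr (u', v')) by simp [supp])
        simp only [supp, mem_insert, mem_singleton] at a1 a2
        have a3 : u' < v' := h2.1
        have : u' = u ∧ v' = v := by omega
        rw [this.1, this.2]
        exact Or.inr (Or.inr rfl)
    -- the determinant functional `q * (coordinate u) - p * (coordinate v)` kills the edge
    have hdet : ∑ i, (a i : ℤ) * (q * vec p q b (x i) u - p * vec p q b (x i) v) = 0 := by
      have e1 : ∑ i, (a i : ℤ) * (q * vec p q b (x i) u - p * vec p q b (x i) v) =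
          q * ∑ i, (a i : ℤ) * vec p q b (x i) u - p * ∑ i, (a i : ℤ) * vec p q b (x i) v := by
        rw [mul_sum, mul_sum, ← sum_sub_distrib]
        exact sum_congr rfl fun i _ => by ring
      rw [e1, h0 u, h0 v]
      simp [vec, huv.ne, huv.ne']
      ring
    have hu : (q : ℤ) * vec p q b (Sum.inl u) u - p * vec p q b (Sum.inl u) v = q * b := by
      simp [vec, huv.ne']
    have hv : (q : ℤ) * vec p q b (Sum.inl v) u - p * vec p q b (Sum.inl v) v = -(p * b) := by
      simp [vec, huv.ne]
    have he : (q : ℤ) * vec p q b (Sum.inr (u, v)) u - p * vec p q b (Sum.inr (u, v)) v = 0 := by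
      simp [vec, huv.ne, huv.ne']
      ring
    have hqb : (0 : ℤ) < q * b := by positivity
    have hpb : (0 : ℤ) < p * b := by positivity
    by_cases h4 : ∃ i, x i = Sum.inl u
    · by_cases h5 : ∃ i, x i = Sum.inl v
      · exact Or.inr ⟨_, rfl, h4, h5⟩
      · exfalso
        obtain ⟨i, hi⟩ := h4
        have h6 := (sum_eq_zero_iff_of_nonneg (fun j _ => by
          refine mul_nonneg (Nat.cast_nonneg _) ?_
          rcases h3 j with h | h | h
          · rw [h, hu]; exact hqb.le
          · exact absurd ⟨j, h⟩ h5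
          · rw [h, he])).1 hdet i (mem_univ i)
        rw [hi, hu] at h6
        have h7 : (0 : ℤ) < a i := by exact_mod_cast ha i
        exact absurd h6 (mul_pos h7 hqb).ne'
    · have : ∀ i, x i = Sum.inr (u, v) := by
        intro i
        rcases h3 i with h | h | h
        · exact absurd ⟨i, h⟩ h4
        · exfalso
          have h6 := (sum_eq_zero_iff_of_nonpos (fun j _ => by
            refine mul_nonpos_of_nonneg_of_nonpos (Nat.cast_nonneg _) ?_
            rcases h3 j with h | h | h
            · exact absurd ⟨j, h⟩ h4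
            · rw [h, hv]; linarith
            · rw [h, he])).1 hdet i (mem_univ i)
          rw [h, hv] at h6
          have h7 : (0 : ℤ) < a i := by exact_mod_cast ha i
          have := mul_pos h7 hpb
          linarith
        · exact h
      exact Or.inl ⟨hall this, this⟩

end Pool.Agent.MP_f29e3e_lc
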