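import Mathlib
import Pool.Agent.Lib.Cx.All
import Pool.Agent.MP_f29e3e_lc.Core

/-!
The reduction from 3-SAT.
-/

set_option autoImplicit false

namespace Pool.Agent.MP_f29e3e_lc

open Finset Pool.Agent.Lib.Cx

/-- The literal at position `v` of the formula. -/
def lit (φ : List (Clause3 ℕ)) (v : ℕ) : ℕ × Bool :=
  if v % 3 = 0 then (φ.getD (v / 3) ((0, false), (0, false), (0, false))).1
  else if v % 3 = 1 then (φ.getD (v / 3) ((0, false), (0, false), (0, false))).2.1
  else (φ.getD (v / 3) ((0, false), (0, false), (0, false))).2.2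

/-- Two positions conflict: same clause, or opposite literals. -/
def Conf (φ : List (Clause3 ℕ)) (u v : ℕ) : Prop :=
  u / 3 = v / 3 ∨ ((lit φ u).1 = (lit φ v).1 ∧ (lit φ u).2 ≠ (lit φ v).2)

instance (φ : List (Clause3 ℕ)) (u v : ℕ) : Decidable (Conf φ u v) := by
  unfold Conf; infer_instance

def edges (φ : List (Clause3 ℕ)) : List (ℕ × ℕ) :=
  ((List.range (3 * φ.length)).product (List.range (3 * φ.length))).filter
    (fun e => decide (e.1 < e.2 ∧ Conf φ e.1 e.2))

lemma mem_edges {φ : List (Clause3 ℕ)} {e : ℕ × ℕ} :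
    e ∈ edges φ ↔ e.1 < e.2 ∧ e.2 < 3 * φ.length ∧ Conf φ e.1 e.2 := by
  obtain ⟨u, v⟩ := e
  simp only [edges, List.mem_filter, List.pair_mem_product, List.mem_range, decide_eq_true_eq]
  constructor
  · rintro ⟨⟨-, h1⟩, h2, h3⟩
    exact ⟨h2, h1, h3⟩
  · rintro ⟨h1, h2, h3⟩
    exact ⟨⟨by omega, h2⟩, h1, h3⟩

lemma nodup_edges (φ : List (Clause3 ℕ)) : (edges φ).Nodup :=
  (List.Nodup.product List.nodup_range List.nodup_range).filter _

lemma Conf.symm {φ : List (Clause3 ℕ)} {u v : ℕ} (h : Conf φ u v) : Conf φ v u :=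
  h.imp Eq.symm (fun h => ⟨h.1.symm, h.2.symm⟩)

lemma holds_iff (φ : List (Clause3 ℕ)) (s : ℕ → Bool) {j : ℕ} (hj : j < φ.length) :
    Clause3.Holds s φ[j] ↔ ∃ v, v / 3 = j ∧ s (lit φ v).1 = (lit φ v).2 := by
  have e : φ.getD j ((0, false), (0, false), (0, false)) = φ[j] := List.getD_eq_getElem _ _ hj
  constructor
  · rintro (h | h | h)
    · refine ⟨3 * j, by omega, ?_⟩
      rwa [lit, if_pos (by omega), show 3 * j / 3 = j by omega, e]
    · refine ⟨3 * j + 1, by omega, ?_⟩
      rwa [lit, if_neg (by omega), if_pos (by omega), show (3 * j + 1) / 3 = j by omega, e]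
    · refine ⟨3 * j + 2, by omega, ?_⟩
      rwa [lit, if_neg (by omega), if_neg (by omega), show (3 * j + 2) / 3 = j by omega, e]
  · rintro ⟨v, rfl, h⟩
    unfold lit at h
    rw [e] at h
    split_ifs at h
    · exact Or.inl h
    · exact Or.inr (Or.inl h)
    · exact Or.inr (Or.inr h)

/-- 3-SAT and independent sets of positions. -/
lemma sat_iff (φ : List (Clause3 ℕ)) : Sat3 φ ↔ ∃ I : Finset ℕ, φ.length ≤ I.card ∧
    (∀ v ∈ I, v < 3 * φ.length) ∧ ∀ u ∈ I, ∀ v ∈ I, u < v → ¬ Conf φ u v := by
  classical
  constructor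
  · rintro ⟨s, hs⟩
    have h1 : ∀ j, j < φ.length → ∃ v, v / 3 = j ∧ s (lit φ v).1 = (lit φ v).2 :=
      fun j hj => (holds_iff φ s hj).1 (hs _ (List.getElem_mem hj))
    choose! g hg using h1
    refine ⟨(range φ.length).image g, ?_, ?_, ?_⟩
    · rw [card_image_of_injOn, card_range]
      intro i hi j hj e
      rw [← (hg i (mem_range.1 hi)).1, ← (hg j (mem_range.1 hj)).1, e]
    · intro v hv
      obtain ⟨j, hj, rfl⟩ := mem_image.1 hv
      have := (hg j (mem_range.1 hj)).1
      have := mem_range.1 hj
      omega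
    · intro u hu v hv huv hc
      obtain ⟨i, hi, rfl⟩ := mem_image.1 hu
      obtain ⟨j, hj, rfl⟩ := mem_image.1 hv
      have a1 := hg i (mem_range.1 hi)
      have a2 := hg j (mem_range.1 hj)
      rcases hc with h | ⟨h1, h2⟩
      · rw [a1.1, a2.1] at h
        rw [h] at huv
        exact lt_irrefl _ huv
      · exact h2 (by rw [← a1.2, ← a2.2, h1])
  · rintro ⟨I, hI, hlt, hind⟩
    have hind' : ∀ u ∈ I, ∀ v ∈ I, Conf φ u v → u = v := by
      intro u hu v hv hc
      rcases lt_trichotomy u v with h | h | h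
      · exact absurd hc (hind u hu v hv h)
      · exact h
      · exact absurd hc.symm (hind v hv u hu h)
    have hsurj : I.image (fun v => v / 3) = range φ.length := by
      apply eq_of_subset_of_card_le
      · intro j hj
        obtain ⟨v, hv, rfl⟩ := mem_image.1 hj
        have := hlt v hv
        exact mem_range.2 (by omega)
      · rw [card_image_of_injOn (fun u hu v hv e => hind' u hu v hv (Or.inl e)), card_range]
        exact hI
    refine ⟨fun x => decide (∃ v ∈ I, lit φ v = (x, true)), fun c hc => ?_⟩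
    obtain ⟨j, hj, rfl⟩ := List.getElem_of_mem hc
    rw [holds_iff φ _ hj]
    have : j ∈ I.image (fun v => v / 3) := by rw [hsurj]; exact mem_range.2 hj
    obtain ⟨v, hv, e⟩ := mem_image.1 this
    refine ⟨v, e, ?_⟩
    cases hb : (lit φ v).2
    · rw [decide_eq_false_iff_not]
      rintro ⟨w, hw, ew⟩
      have := hind' v hv w hw (Or.inr ⟨by rw [ew], by rw [ew, hb]; simp⟩)
      subst this
      rw [ew] at hb
      exact absurd hb (by simp)
    · rw [decide_eq_true_eq]
      exact ⟨v, hv, Prod.ext rfl hb⟩

/-- The base. -/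
def base (p q b h n : ℕ) : ℕ := (p + q + b) ^ 2 * (n + 1) ^ h + 1

/-- The numbers of the instance. -/
def elems (p q b h : ℕ) (φ : List (Clause3 ℕ)) : List ℕ :=
  (List.range (3 * φ.length)).map (fun v => b * mu h (base p q b h (3 * φ.length)) v) ++
    (edges φ).map (fun e => p * mu h (base p q b h (3 * φ.length)) e.1 +
      q * mu h (base p q b h (3 * φ.length)) e.2)

/-- A bound for the numbers. -/
def bound (p q b h n : ℕ) : ℕ := (p + q + b) * (h * ((n + 1) * (base p q b h n + 1)) ^ h)

/-- The instance. -/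
def inst (p q b h : ℕ) (φ : List (Clause3 ℕ)) : Finset ℤ × ℕ :=
  (((elems p q b h φ).map (fun x : ℕ => (x : ℤ))).toFinset, (edges φ).length + φ.length)

/-- The items of the instance. -/
def items (φ : List (Clause3 ℕ)) : Finset Item :=
  (range (3 * φ.length)).disjSum (edges φ).toFinset

lemma items_valid {φ : List (Clause3 ℕ)} {x : Item} (hx : x ∈ items φ) :
    Valid (3 * φ.length) x := by
  rcases x with v | e
  · simpa [items, Valid] using hx
  · have : e ∈ edges φ := by simpa [items] using hx
    exact ⟨(mem_edges.1 this).1, (mem_edges.1 this).2.1⟩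

variable {p q b h : ℕ}

/-- The integer of an item. -/
def val (p q b h : ℕ) (φ : List (Clause3 ℕ)) (x : Item) : ℤ :=
  (num p q b h (base p q b h (3 * φ.length)) x : ℤ)

lemma inst_fst (φ : List (Clause3 ℕ)) :
    (inst p q b h φ).1 = (items φ).image (val p q b h φ) := by
  ext z
  simp only [inst, elems, List.mem_toFinset, List.mem_map, List.mem_append, List.mem_range,
    mem_image, items, Sum.exists, inl_mem_disjSum, inr_mem_disjSum, mem_range, val, num]
  constructor
  · rintro ⟨x, ⟨v, hv, rfl⟩ | ⟨e, he, rfl⟩, rfl⟩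
    · exact Or.inl ⟨v, hv, rfl⟩
    · exact Or.inr ⟨e, he, rfl⟩
  · rintro (⟨v, hv, rfl⟩ | ⟨e, he, rfl⟩)
    · exact ⟨_, Or.inl ⟨v, hv, rfl⟩, rfl⟩
    · exact ⟨_, Or.inr ⟨e, he, rfl⟩, rfl⟩

lemma val_injOn (hp : 0 < p) (hq : 0 < q) (hb : 0 < b) (hh : 4 ≤ h) (φ : List (Clause3 ℕ)) :
    Set.InjOn (val p q b h φ) (items φ) := fun _ hx _ hy e =>
  num_inj hp hq hb hh (items_valid hx) (items_valid hy) (Nat.cast_injective (R := ℤ) e)

lemma num_le {n : ℕ} {x : Item} (hx : Valid n x) :
    num p q b h (base p q b h n) x ≤ bound p q b h n := by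
  unfold bound
  rcases x with v | e
  · have := mu_le h (base p q b h n) n v hx
    exact Nat.mul_le_mul (by omega) this
  · have h1 := mu_le h (base p q b h n) n e.1 (hx.1.trans hx.2)
    have h2 := mu_le h (base p q b h n) n e.2 hx.2
    simp only [num]
    nlinarith [Nat.mul_le_mul_left p h1, Nat.mul_le_mul_left q h2,
      Nat.zero_le (b * (h * ((n + 1) * (base p q b h n + 1)) ^ h))]

lemma bound_mono {m n : ℕ} (hmn : m ≤ n) : bound p q b h m ≤ bound p q b h n := by
  unfold bound base
  gcongr

/-- The polynomial bound. -/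
noncomputable def boundPoly (p q b h : ℕ) : Polynomial ℕ :=
  Polynomial.C (p + q + b) * (Polynomial.C h * ((Polynomial.X + 1) *
    (Polynomial.C ((p + q + b) ^ 2) * (Polynomial.X + 1) ^ h + 1 + 1)) ^ h)

lemma boundPoly_eval (n : ℕ) : (boundPoly p q b h).eval n = bound p q b h n := by
  simp [boundPoly, bound, base]

lemma inst_small (hp : 0 < p) (hq : 0 < q) (hb : 0 < b) (hh : 4 ≤ h) (φ : List (Clause3 ℕ)) :
    ∀ x ∈ (inst p q b h φ).1, x.natAbs ≤ (boundPoly p q b h).eval (inst p q b h φ).1.card := by
  rw [boundPoly_eval, inst_fst, card_image_of_injOn (val_injOn hp hq hb hh φ)]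
  intro x hx
  obtain ⟨y, hy, rfl⟩ := mem_image.1 hx
  rw [val, Int.natAbs_natCast]
  refine (num_le (items_valid hy)).trans (bound_mono ?_)
  simp [items]

lemma sum_coeffs {l : ℕ} (a : Fin l → ℕ) (b : ℕ) (f : Fin (l + 1) → ℤ) :
    ∑ i, coeffs a b i * f i = ∑ i, (a i : ℤ) * f i.castSucc - b * f (Fin.last l) := by
  rw [Fin.sum_univ_castSucc]
  simp [coeffs, sub_eq_add_neg]

theorem inst_correct {l : ℕ} (a : Fin (l + 1) → ℕ) (ha : ∀ i, 0 < a i) (hq : 0 < q) (hb : 0 < b)
    (hs : ∑ i, a i = a 0 + q) (hh : 2 * (l + 2) ≤ h) (φ : List (Clause3 ℕ)) :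
    Sat3 φ ↔ YesInstance (coeffs a b) (inst (a 0) q b h φ) := by
  classical
  have hp := ha 0
  have hinj := val_injOn hp hq hb (show 4 ≤ h by omega) φ
  rw [sat_iff]
  unfold YesInstance
  rw [inst_fst]
  constructor
  · rintro ⟨I, hI, hlt, hind⟩
    have hsub : I.disjSum (edges φ).toFinset ⊆ items φ :=
      disjSum_mono (fun v hv => mem_range.2 (hlt v hv)) (subset_refl _)
    refine ⟨(I.disjSum (edges φ).toFinset).image (val (a 0) q b h φ), image_subset_image hsub,
      ?_, ?_⟩
    · rw [card_image_of_injOn (hinj.mono hsub), card_disjSum,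
        List.toFinset_card_of_nodup (nodup_edges φ)]
      simp only [inst]
      omega
    · intro z hz h0
      have hz' : ∀ i, ∃ x ∈ I.disjSum (edges φ).toFinset, val (a 0) q b h φ x = z i :=
        fun i => mem_image.1 (hz i)
      choose x hx hxz using hz'
      have hf := formal (p := a 0) (q := q) (b := b) (h := h) (n := 3 * φ.length) (coeffs a b) x
        (fun i => items_valid (hsub (hx i)))
        (by
          rw [Fin.sum_univ_castSucc]
          simp only [coeffs, Fin.lastCases_castSucc, Fin.lastCases_last, Nat.abs_cast, abs_neg]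
          rw [← hs]
          push_cast
          exact le_rfl)
        (by simpa using hh)
        (by rw [← h0]; exact sum_congr rfl fun i _ => by rw [← hxz i]; rfl)
      rcases formal_cases a ha hp hq hb hs (fun i => x i.castSucc) (x (Fin.last _))
        (fun i => items_valid (hsub (hx _))) (items_valid (hsub (hx _)))
        (fun t => by have := hf t; rw [sum_coeffs] at this; linarith) with
        ⟨h1, h2⟩ | ⟨e, h1, ⟨i, h2⟩, ⟨j, h3⟩⟩
      · have hall : ∀ i, z i = z (Fin.last _) := by
          intro i
          rw [← hxz, ← hxz]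
          induction i using Fin.lastCases with
          | last => rfl
          | cast i => rw [h2 i]
        refine ⟨Finpartition.indiscrete (univ_nonempty.ne_empty), fun Q hQ => ?_⟩
        simp only [Finpartition.indiscrete_parts, mem_singleton] at hQ
        subst hQ
        refine ⟨fun i _ j _ => by rw [hall i, hall j], ?_⟩
        have := sum_coeffs a b (fun _ => 1)
        simp only [mul_one] at this
        rw [this, ← h1, ← hs]
        push_cast
        ring
      · exfalso
        have a1 := hx (Fin.last _)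
        have a2 := hx i.castSucc
        have a3 := hx j.castSucc
        rw [h1, inr_mem_disjSum, List.mem_toFinset, mem_edges] at a1
        rw [h2, inl_mem_disjSum] at a2
        rw [h3, inl_mem_disjSum] at a3
        exact hind _ a2 _ a3 a1.1 a1.2.2
  · rintro ⟨S, hS, hk, hfree⟩
    obtain ⟨T, hT, rfl⟩ := subset_image_iff.1 hS
    rw [card_image_of_injOn (hinj.mono hT)] at hk
    simp only [inst] at hk
    -- no edge together with both ends
    have hno : ∀ e : ℕ × ℕ, Sum.inr e ∈ T → Sum.inl e.1 ∈ T → Sum.inl e.2 ∈ T → False := by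
      intro e h1 h2 h3
      let x : Fin (l + 2) → Item :=
        Fin.lastCases (Sum.inr e) (fun i => if i = 0 then Sum.inl e.1 else Sum.inl e.2)
      have hxT : ∀ i, x i ∈ T := by
        intro i
        induction i using Fin.lastCases with
        | last => simpa [x] using h1
        | cast i =>
          simp only [x, Fin.lastCases_castSucc]
          split_ifs
          · exact h2
          · exact h3
      have he := items_valid (hT h1)
      obtain ⟨P, hP⟩ := hfree (fun i => val (a 0) q b h φ (x i))
        (fun i => mem_image_of_mem _ (hxT i)) (by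
          rw [sum_coeffs, Fin.sum_univ_succ]
          rw [Fin.sum_univ_succ] at hs
          have hs' : ∑ i : Fin l, (a i.succ : ℤ) = q := by
            have : ∑ i : Fin l, a i.succ = q := by omega
            exact_mod_cast this
          simp only [x, Fin.lastCases_castSucc, Fin.lastCases_last, if_true, Fin.succ_ne_zero,
            if_false, ← sum_mul, hs', val, num]
          push_cast
          ring)
      obtain ⟨Q, hQ, h0Q⟩ := P.exists_mem (mem_univ (Fin.castSucc (0 : Fin (l + 1))))
      obtain ⟨hQ1, hQ2⟩ := hP Q hQ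
      have hQe : Q = {Fin.castSucc (0 : Fin (l + 1))} := by
        refine eq_singleton_iff_unique_mem.2 ⟨h0Q, fun i hi => ?_⟩
        have h4 := hinj (hT (hxT _)) (hT (hxT _)) (hQ1 i hi _ h0Q)
        induction i using Fin.lastCases with
        | last =>
          simp only [x, Fin.lastCases_castSucc, Fin.lastCases_last, if_true] at h4
          cases h4
        | cast i =>
          simp only [x, Fin.lastCases_castSucc, if_true] at h4
          split_ifs at h4 with h5
          · rw [h5]
          · have h6 := Sum.inl_injective h4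
            have h7 := he.1
            omega
      rw [hQe, sum_singleton] at hQ2
      simp only [coeffs, Fin.lastCases_castSucc] at hQ2
      omega
    set U := T.toLeft with hU
    set F := (edges φ).toFinset \ T.toRight with hF
    have hR : T.toRight ⊆ (edges φ).toFinset := by
      intro e he
      have := hT (mem_toRight.1 he)
      simpa [items] using this
    have c1 : U.card + T.toRight.card = T.card := card_toLeft_add_card_toRight
    have c2 : F.card + T.toRight.card = (edges φ).length := by
      rw [hF, card_sdiff_add_card_eq_card hR, List.toFinset_card_of_nodup (nodup_edges φ)]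
    have c3 : (F.image Prod.fst).card ≤ F.card := card_image_le
    have c4 : U.card ≤ (U \ F.image Prod.fst).card + (F.image Prod.fst).card :=
      card_le_card_sdiff_add_card
    have hUlt : ∀ v ∈ U, v < 3 * φ.length := fun v hv => items_valid (hT (mem_toLeft.1 hv))
    refine ⟨U \ F.image Prod.fst, by omega, fun v hv => hUlt v (mem_sdiff.1 hv).1, ?_⟩
    intro u hu v hv huv hc
    obtain ⟨hu1, hu2⟩ := mem_sdiff.1 hu
    obtain ⟨hv1, -⟩ := mem_sdiff.1 hv
    apply hu2
    refine mem_image.2 ⟨(u, v), mem_sdiff.2 ⟨List.mem_toFinset.2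
      (mem_edges.2 ⟨huv, hUlt v hv1, hc⟩), fun h => ?_⟩, rfl⟩
    exact hno (u, v) (mem_toRight.1 h) (mem_toLeft.1 hu1) (mem_toLeft.1 hv1)

end Pool.Agent.MP_f29e3e_lc
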