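import Mathlib
import Pool.Agent.MP_f29e3e_lc.Red

/-!
Polynomial time of the reduction, and membership in NP.
-/

set_option autoImplicit false

namespace Pool.Agent.MP_f29e3e_lc

open Finset Pool.Agent.Lib.Cx Function

variable {α : Type} [Enc α]

@[fun_prop] theorem natCast_pt {f : α → ℕ} (hf : PT f) : PT (fun x => (f x : ℤ)) := by
  have h : PT (fun x => (f x, 0)) := by fun_prop
  refine PT.of_enc (h.enc'.of_eq fun x => ?_)
  change enc (((f x : ℤ)).toNat, (-(f x : ℤ)).toNat) = _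
  simp

@[fun_prop] theorem toNat_pt {f : α → ℤ} (hf : PT f) : PT (fun x => (f x).toNat) := by
  have h : PT (fun x => ((f x).toNat, (-(f x)).toNat)) := PT.of_enc hf.enc'
  exact h.fst

@[fun_prop] theorem neg_pt {f : α → ℤ} (hf : PT f) : PT (fun x => -f x) := by
  have h : PT (fun x => ((f x).toNat, (-(f x)).toNat)) := PT.of_enc hf.enc'
  have h2 : PT (fun x => ((-(f x)).toNat, (f x).toNat)) := h.snd.prodMk h.fst
  refine PT.of_enc (h2.enc'.of_eq fun x => ?_)
  change enc ((-(f x)).toNat, (- -(f x)).toNat) = _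
  rw [neg_neg]

@[fun_prop] theorem lit_pt {φ : α → List (Clause3 ℕ)} {v : α → ℕ} (h1 : PT φ) (h2 : PT v) :
    PT (fun x => lit (φ x) (v x)) := by
  unfold lit; fun_prop

@[fun_prop] theorem conf_pp {φ : α → List (Clause3 ℕ)} {u v : α → ℕ} (h1 : PT φ) (h2 : PT u)
    (h3 : PT v) : PP (fun x => Conf (φ x) (u x) (v x)) := by
  unfold Conf; fun_prop

@[fun_prop] theorem edges_pt {φ : α → List (Clause3 ℕ)} (h1 : PT φ) :
    PT (fun x => edges (φ x)) := by
  unfold edges; fun_prop

@[fun_prop] theorem mu_pt (h : ℕ) {M v : α → ℕ} (h1 : PT M) (h2 : PT v) :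
    PT (fun x => mu h (M x) (v x)) := by
  unfold mu
  exact (PT.mapConst (List.range h) (f := fun j x => (v x * M x) ^ j)
    (fun j _ => by fun_prop)).sum

@[fun_prop] theorem base_pt (p q b h : ℕ) {n : α → ℕ} (h1 : PT n) :
    PT (fun x => base p q b h (n x)) := by
  unfold base; fun_prop

theorem elems_pt (p q b h : ℕ) : PT (elems p q b h) := by
  unfold elems; fun_prop

theorem sorted_eq (l : List ℕ) (B : ℕ) (hB : ∀ x ∈ l, x < B) :
    ((l.map (fun x : ℕ => (x : ℤ))).toFinset).sort (· ≤ ·) =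
      ((List.range B).filter (fun x => decide (x ∈ l))).map (fun x : ℕ => (x : ℤ)) := by
  have hnd : (((List.range B).filter (fun x => decide (x ∈ l))).map
      (fun x : ℕ => (x : ℤ))).Nodup :=
    (List.nodup_range.filter _).map Nat.cast_injective
  have e : (l.map (fun x : ℕ => (x : ℤ))).toFinset = (((List.range B).filter
      (fun x => decide (x ∈ l))).map (fun x : ℕ => (x : ℤ))).toFinset := by
    ext z
    simp only [List.mem_toFinset, List.mem_map, List.mem_filter, List.mem_range,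
      decide_eq_true_eq]
    exact ⟨fun ⟨x, h1, h2⟩ => ⟨x, ⟨hB x h1, h1⟩, h2⟩, fun ⟨x, h1, h2⟩ => ⟨x, h1.2, h2⟩⟩
  rw [e, List.toFinset_sort _ hnd]
  rw [List.pairwise_map]
  exact (List.pairwise_le_range.filter _).imp (fun h => by exact_mod_cast h)

theorem inst_pt (p q b h : ℕ) : PT (inst p q b h) := by
  have h1 := elems_pt p q b h
  have h2 : PT (fun φ : List (Clause3 ℕ) => bound p q b h (3 * φ.length) + 1) := by
    unfold bound; fun_prop
  have h3 : PB (fun φ : List (Clause3 ℕ) => bound p q b h (3 * φ.length) + 1) := by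
    unfold bound base; fun_prop
  have h4 : PT (fun φ : List (Clause3 ℕ) => ((List.range (bound p q b h (3 * φ.length) + 1)).filter
      (fun x => decide (x ∈ elems p q b h φ))).map (fun x : ℕ => (x : ℤ))) := by
    fun_prop
  have h5 : PT (fun φ => (inst p q b h φ).1) := by
    refine PT.of_enc (h4.enc'.of_eq fun φ => ?_)
    rw [← sorted_eq]
    · rfl
    · intro x hx
      rcases List.mem_append.1 hx with hx | hx
      · obtain ⟨v, hv, rfl⟩ := List.mem_map.1 hx
        exact Nat.lt_succ_of_le (num_le (x := Sum.inl v) (List.mem_range.1 hv))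
      · obtain ⟨e, he, rfl⟩ := List.mem_map.1 hx
        exact Nat.lt_succ_of_le (num_le (x := Sum.inr e)
          ⟨(mem_edges.1 he).1, (mem_edges.1 he).2.1⟩)
  have h6 : PT (fun φ => (inst p q b h φ).2) := by
    unfold inst; fun_prop
  exact h5.prodMk h6

theorem hard {l : ℕ} (hl : 2 ≤ l) (a : Fin l → ℕ) (b : ℕ) (ha : ∀ i, 0 < a i) (hb : 0 < b) :
    ∃ p : Polynomial ℕ, HardOn (fun I : Finset ℤ × ℕ => ∀ x ∈ I.1, x.natAbs ≤ p.eval I.1.card)
      (YesInstance (coeffs a b)) := by
  obtain ⟨l, rfl⟩ : ∃ m, l = m + 1 + 1 := ⟨l - 2, by omega⟩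
  have hq : 0 < ∑ i : Fin (l + 1), a i.succ := sum_pos (fun i _ => ha _) univ_nonempty
  refine ⟨boundPoly (a 0) (∑ i : Fin (l + 1), a i.succ) b (2 * (l + 3)), hardOn_sat3.of_red
    (inst (a 0) (∑ i : Fin (l + 1), a i.succ) b (2 * (l + 3))) (inst_pt _ _ _ _) fun φ _ =>
    ⟨inst_small (ha 0) hq hb (by omega) φ,
      inst_correct a ha hq hb (Fin.sum_univ_succ _) (by omega) φ⟩⟩

/-! ### Membership in NP -/

/-- All lists of length `m` with entries in `S`. -/
def tuples : ℕ → List ℤ → List (List ℤ)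
  | 0, _ => [[]]
  | m + 1, S => S.flatMap (fun s => (tuples m S).map (fun t => s :: t))

theorem tuples_pt (m : ℕ) : PT (tuples m) := by
  induction m with
  | zero => exact PT.const _
  | succ m ih =>
    have : tuples (m + 1) = fun S => S.flatMap (fun s => (tuples m S).map (fun t => s :: t)) := rfl
    rw [this]
    fun_prop

theorem mem_tuples (m : ℕ) (S t : List ℤ) : t ∈ tuples m S ↔ t.length = m ∧ ∀ x ∈ t, x ∈ S := by
  induction m generalizing t with
  | zero =>
    simp only [tuples, List.mem_singleton, List.length_eq_zero_iff]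
    exact ⟨fun h => ⟨h, by simp [h]⟩, fun h => h.1⟩
  | succ m ih =>
    simp only [tuples, List.mem_flatMap, List.mem_map, ih]
    constructor
    · rintro ⟨s, hs, u, ⟨h1, h2⟩, rfl⟩
      exact ⟨by simp [h1], by simpa [hs] using h2⟩
    · rintro ⟨h1, h2⟩
      rcases t with _ | ⟨s, u⟩
      · simp at h1
      · exact ⟨s, h2 s (by simp), u, ⟨by simpa using h1, fun x hx => h2 x (by simp [hx])⟩, rfl⟩

theorem sum_pt {ι : Type} [Fintype ι] {f : ι → α → ℕ} (hf : ∀ i, PT (f i)) :
    PT (fun x => ∑ i, f i x) :=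
  (PT.mapConst (univ : Finset ι).toList (f := f) (fun i _ => hf i)).sum.of_eq
    (fun _ => (sum_map_toList _ _).symm)

theorem sol_pp {m : ℕ} (c : Fin m → ℤ) : PP (fun t : List ℤ => ∑ i, c i * t.getD i 0 = 0) := by
  have h1 : PT (fun t : List ℤ => ∑ i : Fin m, ((c i).toNat * (t.getD i 0).toNat +
      (-c i).toNat * (-t.getD i 0).toNat)) := sum_pt fun i => by fun_prop
  have h2 : PT (fun t : List ℤ => ∑ i : Fin m, ((c i).toNat * (-t.getD i 0).toNat +
      (-c i).toNat * (t.getD i 0).toNat)) := sum_pt fun i => by fun_prop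
  refine (PP.eq h1 h2).of_iff fun t => ?_
  rw [← Nat.cast_inj (R := ℤ), ← sub_eq_zero (a := ((_ : ℕ) : ℤ))]
  push_cast
  rw [← sum_sub_distrib]
  have : ∀ x y : ℤ, x * y = (x.toNat : ℤ) * y.toNat + (-x).toNat * (-y).toNat -
      ((x.toNat : ℤ) * (-y).toNat + (-x).toNat * y.toNat) := by
    intro x y
    conv_lhs => rw [← Int.toNat_sub_toNat_neg x, ← Int.toNat_sub_toNat_neg y]
    ring
  rw [sum_congr rfl (fun i _ => this (c i) (t.getD i 0))]

theorem triv_pp {m : ℕ} (c : Fin m → ℤ) :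
    PP (fun t : List ℤ => IsTrivial c (fun i => t.getD i 0)) := by
  unfold IsTrivial
  refine PP.exists_fin fun P => PP.forall_fin fun Q => PP.imp (PP.const _)
    (PP.and (PP.forall_fin fun i => PP.imp (PP.const _) (PP.forall_fin fun j =>
      PP.imp (PP.const _) (by fun_prop))) (PP.const _))

instance : Dec ℤ := by
  obtain ⟨d, hd, e⟩ := (inferInstance : Dec (ℕ × ℕ)).dec
  refine ⟨⟨fun x => (d x).map (fun z => if z.2 = 0 then (z.1 : ℤ) else -(z.2 : ℤ)),
    by fun_prop, fun n => ?_⟩⟩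
  have : enc n = enc (n.toNat, (-n).toNat) := rfl
  simp only [this, e, Option.map_some, Option.some.injEq]
  split_ifs <;> omega

/-- Yes-instances in list form. -/
def YesL {m : ℕ} (c : Fin m → ℤ) (I : List ℤ × ℕ) : Prop :=
  I.1.Nodup ∧ I.1.Pairwise (· ≤ ·) ∧ YesInstance c (I.1.toFinset, I.2)

theorem freeSubset_eq {m : ℕ} (c : Fin m → ℤ) : freeSubset c = langOf (YesL c) := by
  funext x
  simp only [freeSubset, langOf, decide_eq_decide]
  constructor
  · rintro ⟨⟨A, k⟩, rfl, h⟩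
    exact ⟨(A.sort (· ≤ ·), k), rfl, sort_nodup _ _, pairwise_sort _ _, by simpa using h⟩
  · rintro ⟨⟨A, k⟩, rfl, h1, h2, h3⟩
    refine ⟨(A.toFinset, k), ?_, h3⟩
    change enc (A.toFinset.sort (· ≤ ·), k) = enc (A, k)
    rw [(List.toFinset_sort _ h1).2 h2]

theorem mem_NP {m : ℕ} (c : Fin m → ℤ) : freeSubset c ∈ N68a2faeb.NP := by
  rw [freeSubset_eq]
  have t1 := tuples_pt m
  have t2 := sol_pp c
  have t3 := triv_pp c
  refine langOf_mem_NP (β := List ℤ) (fun z => z.1.1.Nodup ∧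
      z.1.1.Pairwise (fun x y => x.toNat + (-y).toNat ≤ y.toNat + (-x).toNat) ∧ z.2.Nodup ∧
      (∀ x ∈ z.2, x ∈ z.1.1) ∧ z.1.2 ≤ z.2.length ∧
      ∀ t ∈ tuples m z.2, (∑ i, c i * t.getD i 0 = 0 → IsTrivial c (fun i => t.getD i 0)))
    ?_ (fun I => size I.1) (by fun_prop) ?_ ?_
  · refine PP.and (by fun_prop) (PP.and (by fun_prop) (PP.and (by fun_prop) (PP.and (by fun_prop)
      (PP.and (by fun_prop) (PP.forall_mem (by fun_prop) ?_)))))
    exact PP.imp (t2.comp' (f := Prod.snd) (by fun_prop)) (t3.comp' (f := Prod.snd) (by fun_prop))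
  · rintro ⟨A, k⟩ S ⟨h1, h2, h3, h4, h5, h6⟩
    refine ⟨h1, h2.imp (fun h => by omega), S.toFinset, fun x hx => ?_, ?_, fun z hz h0 => ?_⟩
    · exact List.mem_toFinset.2 (h4 x (List.mem_toFinset.1 hx))
    · rwa [List.toFinset_card_of_nodup h3]
    · have e : (fun i : Fin m => (List.ofFn z).getD i 0) = z := by
        funext i
        simp
      have := h6 (List.ofFn z) ((mem_tuples _ _ _).2 ⟨by simp, fun x hx => by
        obtain ⟨i, rfl⟩ := (List.mem_ofFn' _ _).1 hx
        exact List.mem_toFinset.1 (hz i)⟩) (by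
          refine Eq.trans ?_ h0
          exact sum_congr rfl fun i _ => by rw [congrFun e i])
      rwa [e] at this
  · rintro ⟨A, k⟩ ⟨h1, h2, S, hS, hk, hfree⟩
    have e : (A.filter (fun x => decide (x ∈ S))).toFinset = S := by
      ext x
      simp only [List.mem_toFinset, List.mem_filter, decide_eq_true_eq]
      exact ⟨fun h => h.2, fun h => ⟨List.mem_toFinset.1 (hS h), h⟩⟩
    refine ⟨A.filter (fun x => decide (x ∈ S)), size_sublist List.filter_sublist, h1,
      h2.imp (fun h => by omega), h1.filter _, fun x hx => (List.mem_filter.1 hx).1, ?_,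
      fun t ht h0 => hfree _ (fun i => ?_) h0⟩
    · rwa [← List.toFinset_card_of_nodup (h1.filter _), e]
    · obtain ⟨h3, h4⟩ := (mem_tuples _ _ _).1 ht
      rw [← e, List.mem_toFinset, List.getD_eq_getElem _ _ (by rw [h3]; exact i.2)]
      exact h4 _ (List.getElem_mem _)

end Pool.Agent.MP_f29e3e_lc
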